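import Pool.Agent.H4.FD.Kap

set_option autoImplicit false

/-!
Parity: in a finite simple automorphic loop (data `AL`) of odd order the inversion `J` fixes only `e`.
-/

namespace ALoop

open Equiv

variable {Q : Type*} {G : Subgroup (Perm Q)} {L : Q → Perm Q} {J : Perm Q} {e : Q}

/-- an involution on a set of odd order with an even number of fixed points: impossible -/
private theorem Par_mod [Finite Q] (w : Perm Q) (hw : w * w = 1) :
    2 ∣ Nat.card {x // w x = x} → 2 ∣ Nat.card Q := by
  classical
  intro h2
  have := Fintype.ofFinite Q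
  have : Fact (Nat.Prime 2) := ⟨Nat.prime_two⟩
  have hs : w ^ 2 ^ 1 = 1 := by rw [pow_one, pow_two]; exact hw
  have h1 := Equiv.Perm.card_compl_support_modEq (p := 2) hs
  have h3 : w.supportᶜ.card = Nat.card {x // w x = x} := by
    rw [Nat.card_eq_fintype_card, Fintype.card_subtype]
    congr 1
    ext y
    simp only [Finset.mem_compl, Perm.mem_support, not_not, Finset.mem_filter, Finset.mem_univ,
      true_and]
  rw [h3] at h1
  rw [Nat.card_eq_fintype_card]
  have h4 := (Nat.modEq_zero_iff_dvd.2 h2).symm.trans h1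
  exact Nat.modEq_zero_iff_dvd.1 h4.symm

theorem AL.fix_odd41 [Finite Q] (h : AL G L J e) (hodd : Odd (Nat.card Q)) :
    ∀ x, J x = x → x = e := by
  intro x hx
  by_contra hxe
  have hDJ : J * D L J x * J = D L J x := by rw [h.D_J, hx]
  have hcom : D L J x * J = J * D L J x := by
    calc D L J x * J = (J * D L J x * J) * J := by rw [hDJ]
      _ = J * D L J x * (J * J) := by group
      _ = J * D L J x := by rw [h.JJ1, mul_one]
  have hw : D L J x * J ∈ Z L J := ⟨x, e, hxe, by rw [h.D_e]; exact hcom, by rw [h.D_e]⟩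
  have h2 : 2 ∣ Nat.card {r // (D L J x * J) r = r} := by
    refine two_dvd_card (fun r => ⟨kp L J (D L J x * J) r, h.kp_fix hw r.2⟩) ?_ ?_
    · intro r; exact Subtype.ext (h.kp_kp hw r.2)
    · intro r hr
      exact h.kp_ne hw r.2 (congrArg Subtype.val hr)
  have h3 := Par_mod _ (h.Z_sq hw) h2
  exact (Nat.not_even_iff_odd.2 hodd) (even_iff_two_dvd.2 h3)

end ALoop
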